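import Pool.Agent.P.MP_78b003_nt.Units

set_option autoImplicit false

namespace Pool.Agent.AAC

/-- integer triples standing for x + y t + z t^2 -/
@[ext] structure T where
  x : ℤ
  y : ℤ
  z : ℤ
deriving DecidableEq

def T.mul (d : ℤ) (a b : T) : T :=
  ⟨a.x * b.x + d * (a.y * b.z + a.z * b.y), a.x * b.y + a.y * b.x + d * (a.z * b.z),
    a.x * b.z + a.y * b.y + a.z * b.x⟩
def T.add (a b : T) : T := ⟨a.x + b.x, a.y + b.y, a.z + b.z⟩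
def T.sm (c : ℤ) (a : T) : T := ⟨c * a.x, c * a.y, c * a.z⟩
def T.red (p : ℤ) (a : T) : T := ⟨a.x % p, a.y % p, a.z % p⟩
def T.nm (d : ℤ) (a : T) : ℤ := a.x ^ 3 + d * a.y ^ 3 + d ^ 2 * a.z ^ 3 - 3 * d * a.x * a.y * a.z
noncomputable def T.ev (t : ℝ) (a : T) : ℝ := a.x + a.y * t + a.z * t ^ 2
def T.Cg (p : ℤ) (a b : T) : Prop := a.x ≡ b.x [ZMOD p] ∧ a.y ≡ b.y [ZMOD p] ∧ a.z ≡ b.z [ZMOD p]

/-- six coefficients of a quadratic form in three variables -/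
structure C6 where
  c1 : ℤ
  c2 : ℤ
  c3 : ℤ
  c4 : ℤ
  c5 : ℤ
  c6 : ℤ

def qf (d : ℤ) (c : C6) (A B C : T) : T :=
  (((((A.mul d A).sm c.c1).add ((A.mul d B).sm c.c2)).add ((A.mul d C).sm c.c3)).add
    (((B.mul d B).sm c.c4).add ((B.mul d C).sm c.c5))).add ((C.mul d C).sm c.c6)

lemma ev_mul {d : ℕ} {t : ℝ} (ht : t ^ 3 = (d : ℝ)) (a b : T) :
    (a.mul d b).ev t = a.ev t * b.ev t := by
  simp only [T.mul, T.ev]; push_cast; rw [← ht]; ring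
lemma ev_add (t : ℝ) (a b : T) : (a.add b).ev t = a.ev t + b.ev t := by
  simp only [T.add, T.ev]; push_cast; ring
lemma ev_sm (t : ℝ) (c : ℤ) (a : T) : (a.sm c).ev t = c * a.ev t := by
  simp only [T.sm, T.ev]; push_cast; ring
lemma ev_qf {d : ℕ} {t : ℝ} (ht : t ^ 3 = (d : ℝ)) (c : C6) (A B C : T) :
    (qf d c A B C).ev t = c.c1 * (A.ev t * A.ev t) + c.c2 * (A.ev t * B.ev t) +
      c.c3 * (A.ev t * C.ev t) + c.c4 * (B.ev t * B.ev t) + c.c5 * (B.ev t * C.ev t) +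
      c.c6 * (C.ev t * C.ev t) := by
  simp only [qf, ev_add, ev_sm, ev_mul ht]; ring
lemma ev_inj {d : ℕ} (hd : Squarefree d) (h2 : 2 ≤ d) {t : ℝ} (ht : t ^ 3 = (d : ℝ)) {a b : T}
    (h : a.ev t = b.ev t) : a = b := by
  have := lin_indep hd h2 ht (q0 := ((a.x - b.x : ℤ) : ℚ)) (q1 := ((a.y - b.y : ℤ) : ℚ))
    (q2 := ((a.z - b.z : ℤ) : ℚ)) (by simp only [T.ev] at h; push_cast; linear_combination h)
  obtain ⟨h0, h1, h2⟩ := this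
  have e0 : a.x - b.x = 0 := by exact_mod_cast h0
  have e1 : a.y - b.y = 0 := by exact_mod_cast h1
  have e2 : a.z - b.z = 0 := by exact_mod_cast h2
  ext <;> omega
lemma nm_mul (d : ℤ) (a b : T) : (a.mul d b).nm d = a.nm d * b.nm d := by
  simp only [T.mul, T.nm]; ring
lemma nm_sm (d c : ℤ) (a : T) : (a.sm c).nm d = c ^ 3 * a.nm d := by
  simp only [T.sm, T.nm]; ring

lemma T.Cg.mul {p : ℤ} (d : ℤ) {a b a' b' : T} (h : a.Cg p a') (k : b.Cg p b') :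
    (a.mul d b).Cg p (a'.mul d b') :=
  ⟨(h.1.mul k.1).add (((h.2.1.mul k.2.2).add (h.2.2.mul k.2.1)).mul_left d),
    ((h.1.mul k.2.1).add (h.2.1.mul k.1)).add ((h.2.2.mul k.2.2).mul_left d),
    ((h.1.mul k.2.2).add (h.2.1.mul k.2.1)).add (h.2.2.mul k.1)⟩
lemma T.Cg.add {p : ℤ} {a b a' b' : T} (h : a.Cg p a') (k : b.Cg p b') :
    (a.add b).Cg p (a'.add b') := ⟨h.1.add k.1, h.2.1.add k.2.1, h.2.2.add k.2.2⟩
lemma T.Cg.sm {p : ℤ} (c : ℤ) {a a' : T} (h : a.Cg p a') : (a.sm c).Cg p (a'.sm c) :=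
  ⟨h.1.mul_left c, h.2.1.mul_left c, h.2.2.mul_left c⟩
lemma T.Cg.red {p : ℤ} {a a' : T} (h : a.Cg p a') : a.Cg p (a'.red p) :=
  ⟨h.1.trans (Int.mod_modEq _ _).symm, h.2.1.trans (Int.mod_modEq _ _).symm,
    h.2.2.trans (Int.mod_modEq _ _).symm⟩
lemma cg_qf {p : ℤ} (d : ℤ) (c : C6) {A B C A' B' C' : T} (hA : A.Cg p A') (hB : B.Cg p B')
    (hC : C.Cg p C') : (qf d c A B C).Cg p ((qf d c A' B' C').red p) :=
  T.Cg.red ((((((hA.mul d hA).sm _).add ((hA.mul d hB).sm _)).add ((hA.mul d hC).sm _)).add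
    (((hB.mul d hB).sm _).add ((hB.mul d hC).sm _))).add ((hC.mul d hC).sm _))

/-- lower bound for Q^2 * ev, when lo ≤ Q t ≤ hi -/
def T.lo (Q lo hi : ℤ) (a : T) : ℤ :=
  a.x * Q ^ 2 + (if 0 ≤ a.y then a.y * lo else a.y * hi) * Q +
    (if 0 ≤ a.z then a.z * lo ^ 2 else a.z * hi ^ 2)

lemma lo_le {Q lo hi : ℤ} {t : ℝ} (hQ : 0 < Q) (hlo : 0 ≤ lo) (h1 : (lo : ℝ) ≤ Q * t)
    (h2 : Q * t ≤ (hi : ℝ)) (a : T) : (a.lo Q lo hi : ℝ) ≤ Q ^ 2 * a.ev t := by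
  have hQ' : (0 : ℝ) < Q := by exact_mod_cast hQ
  have hlo' : (0 : ℝ) ≤ lo := by exact_mod_cast hlo
  have s1 : (lo : ℝ) ^ 2 ≤ (Q * t) ^ 2 := by gcongr
  have s2 : (Q * t : ℝ) ^ 2 ≤ (hi : ℝ) ^ 2 := by
    have : 0 ≤ (Q : ℝ) * t := hlo'.trans h1
    gcongr
  have e1 : (((if 0 ≤ a.y then a.y * lo else a.y * hi : ℤ)) : ℝ) ≤ a.y * (Q * t) := by
    split_ifs with h
    · have : (0 : ℝ) ≤ a.y := by exact_mod_cast h
      push_cast; exact mul_le_mul_of_nonneg_left h1 this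
    · have : (a.y : ℝ) ≤ 0 := by exact_mod_cast (le_of_lt (not_le.1 h))
      push_cast; exact mul_le_mul_of_nonpos_left h2 this
  have e2 : (((if 0 ≤ a.z then a.z * lo ^ 2 else a.z * hi ^ 2 : ℤ)) : ℝ) ≤ a.z * (Q * t) ^ 2 := by
    split_ifs with h
    · have : (0 : ℝ) ≤ a.z := by exact_mod_cast h
      push_cast; exact mul_le_mul_of_nonneg_left s1 this
    · have : (a.z : ℝ) ≤ 0 := by exact_mod_cast (le_of_lt (not_le.1 h))
      push_cast; exact mul_le_mul_of_nonpos_left s2 this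
  simp only [T.lo, T.ev, Int.cast_add, Int.cast_mul, Int.cast_pow]
  simp only [Int.cast_ite, Int.cast_mul, Int.cast_pow] at e1 e2 ⊢
  nlinarith [mul_le_mul_of_nonneg_right e1 hQ'.le]

/-- state of the doubling chain -/
structure St where
  n : ℤ
  m1 : T
  m2 : T
  N : ℤ
  r0 : T
  r1 : T
  r2 : T
  l : ℤ
  u : ℤ

/-- one doubling step -/
structure Step where
  k0 : C6
  k1 : C6
  k2 : C6
  n : ℤ
  m1 : T
  m2 : T
  N : ℤ
  ap : ℕ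
  am : ℕ

def St.next (p d : ℤ) (s : St) (e : Step) : St :=
  ⟨e.n, e.m1, e.m2, e.N, (qf d e.k0 s.r0 s.r1 s.r2).red p, (qf d e.k1 s.r0 s.r1 s.r2).red p,
    (qf d e.k2 s.r0 s.r1 s.r2).red p, 2 * s.l + e.ap - e.am, 2 * s.u + e.ap + 1 - e.am⟩

def St.ok (d Q lo hi : ℤ) (s : St) (e : Step) : Bool :=
  let G0 := qf d e.k0 ⟨s.n, 0, 0⟩ s.m1 s.m2
  decide (0 < e.n) &&
  decide ((qf d e.k1 ⟨s.n, 0, 0⟩ s.m1 s.m2).sm e.n = G0.mul d e.m1) &&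
  decide ((qf d e.k2 ⟨s.n, 0, 0⟩ s.m1 s.m2).sm e.n = G0.mul d e.m2) &&
  decide (e.N * s.n ^ 6 = s.N ^ 2 * G0.nm d) &&
  decide (2 ^ e.ap * s.n ^ 2 * Q ^ 2 ≤ 2 ^ e.am * G0.lo Q lo hi) &&
  decide (2 ^ e.am * (-(G0.sm (-1)).lo Q lo hi) ≤ 2 ^ (e.ap + 1) * s.n ^ 2 * Q ^ 2)

def Inv (p d : ℤ) (t : ℝ) (s : St) : Prop :=
  0 < s.n ∧ ∃ X0 X1 X2 : T, s.n * X1.ev t = X0.ev t * s.m1.ev t ∧
    s.n * X2.ev t = X0.ev t * s.m2.ev t ∧ X0.nm d = s.N ∧ X0.Cg p s.r0 ∧ X1.Cg p s.r1 ∧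
    X2.Cg p s.r2 ∧ (2 : ℝ) ^ s.l ≤ X0.ev t ∧ X0.ev t ≤ (2 : ℝ) ^ s.u

lemma step_sound {d : ℕ} (hd : Squarefree d) (h2 : 2 ≤ d) {t : ℝ} (ht : t ^ 3 = (d : ℝ))
    {p Q lo hi : ℤ} (hQ : 0 < Q) (hlo : 0 ≤ lo) (h1 : (lo : ℝ) ≤ Q * t) (h2' : Q * t ≤ (hi : ℝ))
    {s : St} {e : Step} (hs : Inv p d t s) (hok : s.ok d Q lo hi e = true) :
    Inv p d t (s.next p d e) := by
  obtain ⟨hn, X0, X1, X2, e1, e2, hN, c0, c1, c2, hl, hu⟩ := hs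
  simp only [St.ok, Bool.and_eq_true, decide_eq_true_eq] at hok
  obtain ⟨⟨⟨⟨⟨o1, o2⟩, o3⟩, o4⟩, o5⟩, o6⟩ := hok
  have hn' : (0 : ℝ) < s.n := by exact_mod_cast hn
  have hQ' : (0 : ℝ) < Q := by exact_mod_cast hQ
  have key : ∀ c : C6, (s.n : ℝ) ^ 2 * (qf d c X0 X1 X2).ev t =
      X0.ev t ^ 2 * (qf d c ⟨s.n, 0, 0⟩ s.m1 s.m2).ev t := by
    intro c
    have e0 : (⟨s.n, 0, 0⟩ : T).ev t = s.n := by simp [T.ev]
    rw [ev_qf ht, ev_qf ht, e0]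
    linear_combination (c.c2 * s.n * X0.ev t + c.c4 * (s.n * X1.ev t + X0.ev t * s.m1.ev t) +
      c.c5 * s.n * X2.ev t) * e1 + (c.c3 * s.n * X0.ev t + c.c5 * X0.ev t * s.m1.ev t +
      c.c6 * (s.n * X2.ev t + X0.ev t * s.m2.ev t)) * e2
  set G0 := qf d e.k0 ⟨s.n, 0, 0⟩ s.m1 s.m2 with hG0
  have f1 := congrArg (T.ev t) o2
  have f2 := congrArg (T.ev t) o3
  rw [ev_sm, ev_mul ht] at f1 f2
  have k0 := key e.k0
  have k1 := key e.k1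
  have k2 := key e.k2
  rw [← hG0] at k0
  have hn2 : (s.n : ℝ) ^ 2 ≠ 0 := by positivity
  have hX0 : 0 < X0.ev t := lt_of_lt_of_le (zpow_pos (by norm_num) _) hl
  refine ⟨o1, qf d e.k0 X0 X1 X2, qf d e.k1 X0 X1 X2, qf d e.k2 X0 X1 X2, ?_, ?_, ?_,
    cg_qf _ _ c0 c1 c2, cg_qf _ _ c0 c1 c2, cg_qf _ _ c0 c1 c2, ?_, ?_⟩
  · apply mul_left_cancel₀ hn2
    simp only [St.next]
    linear_combination (e.n : ℝ) * k1 - e.m1.ev t * k0 + X0.ev t ^ 2 * f1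
  · apply mul_left_cancel₀ hn2
    simp only [St.next]
    linear_combination (e.n : ℝ) * k2 - e.m2.ev t * k0 + X0.ev t ^ 2 * f2
  · have h3 : (qf d e.k0 X0 X1 X2).sm (s.n ^ 2) = (X0.mul d X0).mul d G0 := by
      apply ev_inj hd h2 ht
      rw [ev_sm, ev_mul ht, ev_mul ht]
      push_cast
      linear_combination k0
    have h4 := congrArg (T.nm d) h3
    rw [nm_sm, nm_mul, nm_mul, hN] at h4
    have h6 : s.n ^ 6 ≠ 0 := by positivity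
    apply mul_left_cancel₀ h6
    simp only [St.next]
    linear_combination h4 - o4
  · have b1 := lo_le hQ hlo h1 h2' G0
    have o5' : (2 : ℝ) ^ e.ap * s.n ^ 2 * Q ^ 2 ≤ 2 ^ e.am * (G0.lo Q lo hi : ℝ) := by
      exact_mod_cast o5
    have b2 : (2 : ℝ) ^ e.ap * s.n ^ 2 ≤ 2 ^ e.am * G0.ev t := by
      have hQ2 : (0 : ℝ) < Q ^ 2 := by positivity
      apply le_of_mul_le_mul_right _ hQ2
      have : (2 : ℝ) ^ e.am * (G0.lo Q lo hi : ℝ) ≤ 2 ^ e.am * (Q ^ 2 * G0.ev t) := by gcongr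
      nlinarith
    simp only [St.next]
    rw [zpow_sub₀ (by norm_num), zpow_add₀ (by norm_num), two_mul, zpow_add₀ (by norm_num),
      zpow_natCast, zpow_natCast, div_le_iff₀ (by positivity)]
    apply le_of_mul_le_mul_left _ (show (0 : ℝ) < (s.n : ℝ) ^ 2 by positivity)
    have b3 : (2 : ℝ) ^ s.l * 2 ^ s.l ≤ X0.ev t ^ 2 := by
      rw [pow_two]; exact mul_self_le_mul_self (zpow_pos (by norm_num) _).le hl
    calc (s.n : ℝ) ^ 2 * (2 ^ s.l * 2 ^ s.l * 2 ^ e.ap)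
        = (2 ^ s.l * 2 ^ s.l) * (2 ^ e.ap * s.n ^ 2) := by ring
      _ ≤ X0.ev t ^ 2 * (2 ^ e.am * G0.ev t) := by gcongr
      _ = _ := by linear_combination (-(2 : ℝ) ^ e.am) * k0
  · have b1 := lo_le hQ hlo h1 h2' (G0.sm (-1))
    rw [ev_sm] at b1
    have o6' : (2 : ℝ) ^ e.am * (-((G0.sm (-1)).lo Q lo hi : ℝ)) ≤
        2 ^ (e.ap + 1) * s.n ^ 2 * Q ^ 2 := by exact_mod_cast o6
    have b2 : (2 : ℝ) ^ e.am * G0.ev t ≤ 2 ^ (e.ap + 1) * s.n ^ 2 := by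
      have hQ2 : (0 : ℝ) < Q ^ 2 := by positivity
      apply le_of_mul_le_mul_right _ hQ2
      have : (2 : ℝ) ^ e.am * (Q ^ 2 * G0.ev t) ≤
          2 ^ e.am * (-((G0.sm (-1)).lo Q lo hi : ℝ)) := by
        apply mul_le_mul_of_nonneg_left _ (by positivity)
        push_cast at b1
        linarith
      nlinarith
    simp only [St.next]
    rw [zpow_sub₀ (by norm_num), add_assoc, zpow_add₀ (by norm_num), two_mul,
      zpow_add₀ (by norm_num), ← Nat.cast_succ, zpow_natCast, zpow_natCast,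
      le_div_iff₀ (by positivity)]
    apply le_of_mul_le_mul_left _ (show (0 : ℝ) < (s.n : ℝ) ^ 2 by positivity)
    have b3 : X0.ev t ^ 2 ≤ (2 : ℝ) ^ s.u * 2 ^ s.u := by
      rw [pow_two]; exact mul_self_le_mul_self hX0.le hu
    calc (s.n : ℝ) ^ 2 * ((qf d e.k0 X0 X1 X2).ev t * 2 ^ e.am)
        = X0.ev t ^ 2 * (2 ^ e.am * G0.ev t) := by linear_combination ((2 : ℝ) ^ e.am) * k0
      _ ≤ X0.ev t ^ 2 * (2 ^ (e.ap + 1) * s.n ^ 2) := by gcongr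
      _ ≤ (2 ^ s.u * 2 ^ s.u) * (2 ^ (e.ap + 1) * s.n ^ 2) := by gcongr
      _ = _ := by rw [Nat.succ_eq_add_one]; ring

def run (p d Q lo hi : ℤ) (fin : St → Bool) : St → List Step → Bool
  | s, [] => fin s
  | s, e :: es => s.ok d Q lo hi e && run p d Q lo hi fin (s.next p d e) es

lemma run_sound {d : ℕ} (hd : Squarefree d) (h2 : 2 ≤ d) {t : ℝ} (ht : t ^ 3 = (d : ℝ))
    {p Q lo hi : ℤ} (hQ : 0 < Q) (hlo : 0 ≤ lo) (h1 : (lo : ℝ) ≤ Q * t) (h2' : Q * t ≤ (hi : ℝ))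
    (fin : St → Bool) (es : List Step) : ∀ s : St, Inv p d t s → run p d Q lo hi fin s es = true →
      ∃ s' : St, Inv p d t s' ∧ fin s' = true := by
  induction es with
  | nil => intro s hs h; exact ⟨s, hs, h⟩
  | cons e es ih =>
    intro s hs h
    simp only [run, Bool.and_eq_true] at h
    exact ih _ (step_sound hd h2 ht hQ hlo h1 h2' hs h.1) h.2

def st0 : St := ⟨1, ⟨0, 1, 0⟩, ⟨0, 0, 1⟩, 1, ⟨1, 0, 0⟩, ⟨0, 1, 0⟩, ⟨0, 0, 1⟩, 0, 0⟩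

lemma inv0 (p d : ℤ) (t : ℝ) : Inv p d t st0 := by
  refine ⟨by simp [st0], ⟨1, 0, 0⟩, ⟨0, 1, 0⟩, ⟨0, 0, 1⟩, ?_, ?_, ?_, ?_, ?_, ?_, ?_, ?_⟩ <;>
    simp [st0, T.ev, T.nm, T.Cg]

def T.pw (d : ℤ) (a : T) : ℕ → T
  | 0 => ⟨1, 0, 0⟩
  | k + 1 => (T.pw d a k).mul d a

lemma ev_pw {d : ℕ} {t : ℝ} (ht : t ^ 3 = (d : ℝ)) (a : T) (k : ℕ) :
    (a.pw d k).ev t = a.ev t ^ k := by
  induction k with
  | zero => simp [T.pw, T.ev]
  | succ k ih => rw [T.pw, ev_mul ht, ih, pow_succ]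

lemma pw_mod {p : ℕ} {d : ℤ} (hpd : (d : ZMod p) = 0) (a : T) (k : ℕ) :
    ((a.pw d k).x : ZMod p) = (a.x : ZMod p) ^ k ∧
      (a.x : ZMod p) * ((a.pw d k).y : ZMod p) = k * a.y * (a.x : ZMod p) ^ k := by
  induction k with
  | zero => simp [T.pw]
  | succ k ih =>
    simp only [T.pw, T.mul]
    push_cast
    rw [hpd, ih.1]
    refine ⟨by ring, ?_⟩
    linear_combination (a.x : ZMod p) * ih.2

def fin0 (p : ℤ) (w : ℕ) (s : St) : Bool :=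
  decide (s.N = 1) && decide (s.r0.y % p = 0) && decide (s.r0.x % p ≠ 0) && decide (0 < s.l) &&
    decide (s.u < w * p)

def check (p d Q lo hi : ℤ) (w : ℕ) (es : List Step) : Bool :=
  decide (0 < Q) && decide (6 * Q ≤ lo) && decide (0 ≤ hi) && decide (lo ^ 3 ≤ d * Q ^ 3) &&
    decide (d * Q ^ 3 ≤ hi ^ 3) && decide ((2 ^ w + 3) * Q ^ 2 ≤ lo ^ 2) &&
    run p d Q lo hi (fin0 p w) st0 es

theorem cert_sound {p d : ℕ} (hp : p.Prime) (h5 : 5 ≤ p) (hpd : p ∣ d) (hd : Squarefree d)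
    (h2 : 2 ≤ d) {Q lo hi : ℤ} {w : ℕ} {es : List Step} (hc : check p d Q lo hi w es = true) :
    ∃ t : ℝ, t ^ 3 = (d : ℝ) ∧ ∃ η : ℝ, IsU t η ∧ 1 < η ∧ (∀ u, IsU t u → 1 < u → η ≤ u) ∧
      ∃ a b c : ℤ, η = ((a : ℝ) + (b : ℝ) * t + (c : ℝ) * t ^ 2) / 3 ∧ (p : ℤ) ∣ b := by
  simp only [check, Bool.and_eq_true, decide_eq_true_eq] at hc
  obtain ⟨⟨⟨⟨⟨⟨c1, c2⟩, c3⟩, c4⟩, c5⟩, c6⟩, c7⟩ := hc
  obtain ⟨t, ht0, ht⟩ : ∃ t : ℝ, 0 ≤ t ∧ t ^ 3 = (d : ℝ) :=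
    ⟨(d : ℝ) ^ ((3 : ℕ) : ℝ)⁻¹, by positivity, Real.rpow_inv_natCast_pow (by positivity) (by norm_num)⟩
  have hQ : (0 : ℝ) < Q := by exact_mod_cast c1
  have hlo : 0 ≤ lo := by omega
  have hlo' : (0 : ℝ) ≤ lo := by exact_mod_cast hlo
  have h1 : (lo : ℝ) ≤ Q * t := by
    apply le_of_pow_le_pow_left₀ (n := 3) (by norm_num) (by positivity)
    rw [mul_pow, ht, mul_comm]; exact_mod_cast c4
  have h1' : Q * t ≤ (hi : ℝ) := by
    apply le_of_pow_le_pow_left₀ (n := 3) (by norm_num) (by exact_mod_cast c3)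
    rw [mul_pow, ht, mul_comm]; exact_mod_cast c5
  have ht6 : 6 ≤ t := by
    have : (6 : ℝ) * Q ≤ lo := by exact_mod_cast c2
    nlinarith
  have hw : (2 : ℝ) ^ w ≤ t ^ 2 - 3 := by
    have a1 : ((2 : ℝ) ^ w + 3) * Q ^ 2 ≤ lo ^ 2 := by exact_mod_cast c6
    have a2 : (lo : ℝ) ^ 2 ≤ (Q * t) ^ 2 := by gcongr
    have a3 : ((2 : ℝ) ^ w + 3) * Q ^ 2 ≤ t ^ 2 * Q ^ 2 := by nlinarith
    have := le_of_mul_le_mul_right a3 (by positivity)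
    linarith
  obtain ⟨s, ⟨-, E, -, -, -, -, hN, hr, -, -, hl, hu⟩, hf⟩ :=
    run_sound hd h2 ht c1 hlo h1 h1' _ es st0 (inv0 _ _ _) c7
  simp only [fin0, Bool.and_eq_true, decide_eq_true_eq] at hf
  obtain ⟨⟨⟨⟨f1, f2⟩, f3⟩, f4⟩, f5⟩ := hf
  have hE1 : 1 < E.ev t := lt_of_lt_of_le (one_lt_zpow₀ (by norm_num) f4) hl
  have hint : ∀ a : T, IsIntegral ℤ (a.ev t) := fun a =>
    ((isIntegral_algebraMap (R := ℤ) (A := ℝ) (x := a.x)).add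
      ((isIntegral_algebraMap (R := ℤ) (A := ℝ) (x := a.y)).mul (t_int ht))).add
      ((isIntegral_algebraMap (R := ℤ) (A := ℝ) (x := a.z)).mul ((t_int ht).pow 2))
  have hEU : IsU t (E.ev t) := by
    refine ⟨⟨E.x, E.y, E.z, by simp [T.ev]⟩, hint E, ?_⟩
    refine int_congr (hint ⟨E.x ^ 2 - d * E.y * E.z, d * E.z ^ 2 - E.x * E.y,
      E.y ^ 2 - E.x * E.z⟩) (eq_inv_of_mul_eq_one_right ?_)
    have : ((E.nm d : ℤ) : ℝ) = 1 := by rw [hN, f1]; simp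
    simp only [T.nm, T.ev] at this ⊢
    push_cast at this ⊢
    rw [← ht] at this ⊢
    linear_combination this
  obtain ⟨η, hU, hη1, hmin, k, hk⟩ := exists_fund hd h2 ht ht6 hEU hE1
  refine ⟨t, ht, η, hU, hη1, hmin, ?_⟩
  have hbig := unit_large hd h2 ht ht6 hU hη1
  obtain ⟨⟨q0, q1, q2, hq⟩, hi1, -⟩ := hU
  obtain ⟨a, b, c, ha, hb, hc⟩ := rep3 hd h2 ht q0 q1 q2 (hq ▸ hi1)
  have har : (a : ℝ) = 3 * q0 := by exact_mod_cast congrArg (fun r : ℚ => (r : ℝ)) ha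
  have hbr : (b : ℝ) = 3 * q1 := by exact_mod_cast congrArg (fun r : ℚ => (r : ℝ)) hb
  have hcr : (c : ℝ) = 3 * q2 := by exact_mod_cast congrArg (fun r : ℚ => (r : ℝ)) hc
  refine ⟨a, b, c, by rw [har, hbr, hcr, hq]; ring, ?_⟩
  have hk0 : k ≠ 0 := by rintro rfl; simp at hk; linarith
  have hkp : k < p := by
    have a1 : ((2 : ℝ) ^ w) ^ k ≤ η ^ k := by gcongr; linarith
    have a2 : (2 : ℝ) ^ ((w * k : ℕ) : ℤ) ≤ 2 ^ s.u := by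
      rw [zpow_natCast, pow_mul]; linarith
    have a3 := (zpow_le_zpow_iff_right₀ (by norm_num : (1 : ℝ) < 2)).1 a2
    have a4 : ((w * k : ℕ) : ℤ) < ((w * p : ℕ) : ℤ) := by push_cast at a3 ⊢; linarith
    exact lt_of_mul_lt_mul_left (Nat.cast_lt.1 a4) (Nat.zero_le _)
  have hpw : T.pw d ⟨a, b, c⟩ k = E.sm (3 ^ k) := by
    apply ev_inj hd h2 ht
    rw [ev_pw ht, ev_sm, hk]
    have : (⟨a, b, c⟩ : T).ev t = 3 * η := by simp only [T.ev]; rw [har, hbr, hcr, hq]; ring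
    rw [this, mul_pow]; push_cast; ring
  have : Fact p.Prime := ⟨hp⟩
  have hd0 : (((d : ℕ) : ℤ) : ZMod p) = 0 := by
    rw [Int.cast_natCast]; exact (ZMod.natCast_eq_zero_iff d p).2 hpd
  obtain ⟨m1, m2⟩ := pw_mod hd0 ⟨a, b, c⟩ k
  rw [hpw] at m1 m2
  simp only [T.sm] at m1 m2
  push_cast at m1 m2
  have hy : (E.y : ZMod p) = 0 := by
    rw [ZMod.intCast_zmod_eq_zero_iff_dvd]
    exact Int.dvd_of_emod_eq_zero ((show E.y % (p : ℤ) = s.r0.y % p from hr.2.1).trans f2)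
  have hx : (E.x : ZMod p) ≠ 0 := by
    rw [Ne, ZMod.intCast_zmod_eq_zero_iff_dvd]
    intro h
    exact f3 ((show E.x % (p : ℤ) = s.r0.x % p from hr.1).symm.trans (Int.emod_eq_zero_of_dvd h))
  have h3 : (3 : ZMod p) ≠ 0 := by
    intro h
    have := (ZMod.natCast_eq_zero_iff 3 p).1 (by exact_mod_cast h)
    have := Nat.le_of_dvd (by norm_num) this
    omega
  have hkz : (k : ZMod p) ≠ 0 := by
    intro h
    have := Nat.le_of_dvd (Nat.pos_of_ne_zero hk0) ((ZMod.natCast_eq_zero_iff k p).1 h)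
    omega
  rw [hy, ← m1] at m2
  simp only [mul_zero] at m2
  rw [← ZMod.intCast_zmod_eq_zero_iff_dvd]
  rcases mul_eq_zero.1 m2.symm with h | h
  · rcases mul_eq_zero.1 h with h | h
    · exact absurd h hkz
    · exact h
  · exact absurd h (mul_ne_zero (pow_ne_zero _ h3) hx)

/-- trial division over the block of length 2^k starting at a -/
def noDiv (n : ℕ) : ℕ → ℕ → Bool
  | 0, a => n % a != 0
  | k + 1, a => noDiv n k a && noDiv n k (a + 2 ^ k)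

lemma noDiv_spec (n : ℕ) : ∀ k a, noDiv n k a = true → ∀ m, a ≤ m → m < a + 2 ^ k → ¬ m ∣ n := by
  intro k
  induction k with
  | zero =>
    intro a h m h1 h2
    have : m = a := by omega
    subst this
    simpa [noDiv, Nat.dvd_iff_mod_eq_zero] using h
  | succ k ih =>
    intro a h m h1 h2
    simp only [noDiv, Bool.and_eq_true] at h
    by_cases hm : m < a + 2 ^ k
    · exact ih a h.1 m h1 hm
    · exact ih _ h.2 m (by omega) (by rw [pow_succ] at h2; omega)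

lemma prime_of_noDiv {n k : ℕ} (h2 : 2 ≤ n) (hk : n < (2 + 2 ^ k) ^ 2) (h : noDiv n k 2 = true) :
    n.Prime := by
  rw [Nat.prime_def_le_sqrt]
  refine ⟨h2, fun m hm hs => noDiv_spec n k 2 h m hm ?_⟩
  by_contra hlt
  have h3 : m * m ≤ n := Nat.le_sqrt.1 hs
  have h4 : (2 + 2 ^ k) ^ 2 ≤ m * m := by
    rw [pow_two]; exact Nat.mul_le_mul (not_lt.1 hlt) (not_lt.1 hlt)
  omega

end Pool.Agent.AAC
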