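import Mathlib

set_option autoImplicit false

namespace Pool.Agent.AAC

/-- binary modular power with fuel -/
def pm (a n : ℕ) : ℕ → ℕ → ℕ
  | 0, _ => 1 % n
  | f + 1, e => if e = 0 then 1 % n else
      if e % 2 = 0 then (pm a n f (e / 2)) ^ 2 % n else (pm a n f (e / 2)) ^ 2 * a % n

lemma pm_spec (a n : ℕ) : ∀ f e, e < 2 ^ f → pm a n f e = a ^ e % n := by
  intro f
  induction f with
  | zero => intro e he; have : e = 0 := by omega
            subst this; simp [pm]
  | succ f ih =>
    intro e he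
    have h := ih (e / 2) (by rw [pow_succ] at he; omega)
    rw [pm]
    split_ifs with h0 h1
    · subst h0; simp
    · rw [h, ← Nat.pow_mod, ← pow_mul]
      congr 2; omega
    · rw [h, Nat.mul_mod, ← Nat.pow_mod, ← Nat.mul_mod, ← pow_mul, ← pow_succ]
      congr 2; omega

/-- Pratt test: l lists the prime factors of p - 1 with multiplicity -/
def prattOk (p a : ℕ) (l : List ℕ) : Bool :=
  decide (2 ≤ p) && decide (p < 2 ^ 64) && decide (l.prod = p - 1) && decide (pm a p 64 (p - 1) = 1) &&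
    l.all (fun q => decide (pm a p 64 ((p - 1) / q) ≠ 1))

lemma pratt {p a : ℕ} {l : List ℕ} (hl : ∀ q ∈ l, q.Prime) (h : prattOk p a l = true) : p.Prime := by
  simp only [prattOk, Bool.and_eq_true, decide_eq_true_eq, List.all_eq_true] at h
  obtain ⟨⟨⟨⟨h2, h64⟩, hp⟩, h1⟩, hq⟩ := h
  have one : 1 % p = 1 := Nat.mod_eq_of_lt (by omega)
  have key : ∀ e, e ≤ p → (((a : ZMod p)) ^ e = 1 ↔ pm a p 64 e = 1) := by
    intro e he
    rw [pm_spec a p 64 e (by omega), ← Nat.cast_pow, ← Nat.cast_one (R := ZMod p),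
      ZMod.natCast_eq_natCast_iff', one]
  refine lucas_primality p (a : ZMod p) ((key _ (by omega)).2 h1) ?_
  intro q hqp hqd
  rw [← hp] at hqd
  obtain ⟨r, hr, hqr⟩ := (Prime.dvd_prod_iff hqp.prime).1 hqd
  have : q = r := (Nat.prime_dvd_prime_iff_eq hqp (hl r hr)).1 hqr
  subst this
  rw [Ne, key _ ((Nat.div_le_self _ _).trans (by omega))]
  exact hq q hr

end Pool.Agent.AAC
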