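import Mathlib

set_option autoImplicit false

namespace Pool.Agent.AAC

open Polynomial

/-- membership in the cubic field -/
def InK (t u : ℝ) : Prop := ∃ q0 q1 q2 : ℚ, u = (q0 : ℝ) + (q1 : ℝ) * t + (q2 : ℝ) * t ^ 2

/-- units of the ring of integers -/
def IsU (t u : ℝ) : Prop := InK t u ∧ IsIntegral ℤ u ∧ IsIntegral ℤ u⁻¹

lemma not_cube {d : ℕ} (hd : Squarefree d) (h2 : 2 ≤ d) (b : ℚ) : b ^ 3 ≠ (d : ℚ) := by
  intro h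
  have hint : IsIntegral ℤ b := by
    refine ⟨X ^ 3 - C (d : ℤ), monic_X_pow_sub_C _ (by norm_num), ?_⟩
    simp [h]
  obtain ⟨m, hm⟩ := (IsIntegrallyClosed.isIntegral_iff (R := ℤ) (K := ℚ)).1 hint
  have hm' : (m : ℚ) = b := by simpa using hm
  have h3 : m ^ 3 = (d : ℤ) := by
    have : ((m ^ 3 : ℤ) : ℚ) = ((d : ℤ) : ℚ) := by push_cast; rw [hm', h]
    exact_mod_cast this
  have h4 : m.natAbs ^ 3 = d := by
    have := congrArg Int.natAbs h3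
    simpa [Int.natAbs_pow] using this
  have h5 : m.natAbs * m.natAbs ∣ d := ⟨m.natAbs, by rw [← h4]; ring⟩
  have := hd _ h5
  rw [Nat.isUnit_iff] at this
  rw [this] at h4
  omega

lemma irr {d : ℕ} (hd : Squarefree d) (h2 : 2 ≤ d) :
    Irreducible (X ^ 3 - C (d : ℚ) : ℚ[X]) :=
  X_pow_sub_C_irreducible_of_prime Nat.prime_three (not_cube hd h2)

lemma conj_int {d : ℕ} (hd : Squarefree d) (h2 : 2 ≤ d) {t : ℝ} (ht : t ^ 3 = (d : ℝ))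
    {w : ℂ} (hw : w ^ 3 = (d : ℂ)) (q0 q1 q2 : ℚ) :
    (IsIntegral ℤ ((q0 : ℝ) + (q1 : ℝ) * t + (q2 : ℝ) * t ^ 2) →
      IsIntegral ℤ ((q0 : ℂ) + (q1 : ℂ) * w + (q2 : ℂ) * w ^ 2)) ∧
    (IsIntegral ℤ ((q0 : ℝ) + (q1 : ℝ) * t + (q2 : ℝ) * t ^ 2)⁻¹ →
      IsIntegral ℤ ((q0 : ℂ) + (q1 : ℂ) * w + (q2 : ℂ) * w ^ 2)⁻¹) := by
  obtain ⟨f, hf⟩ : ∃ f : ℚ[X], (X ^ 3 - C (d : ℚ) : ℚ[X]) = f := ⟨_, rfl⟩
  have hirr : Irreducible f := hf ▸ irr hd h2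
  have hfi : Fact (Irreducible f) := ⟨hirr⟩
  have e1 : f.eval₂ (algebraMap ℚ ℝ) t = 0 := by rw [← hf]; simp [ht]
  have e2 : f.eval₂ (algebraMap ℚ ℂ) w = 0 := by rw [← hf]; simp [hw]
  obtain ⟨φ, hφ1, hφ2⟩ : ∃ φ : AdjoinRoot f →+* ℝ, φ (AdjoinRoot.root f) = t ∧
      ∀ q : ℚ, φ (AdjoinRoot.of f q) = q :=
    ⟨AdjoinRoot.lift (algebraMap ℚ ℝ) t e1, AdjoinRoot.lift_root e1,
      fun q => AdjoinRoot.lift_of e1⟩
  obtain ⟨ψ, hψ1, hψ2⟩ : ∃ ψ : AdjoinRoot f →+* ℂ, ψ (AdjoinRoot.root f) = w ∧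
      ∀ q : ℚ, ψ (AdjoinRoot.of f q) = q :=
    ⟨AdjoinRoot.lift (algebraMap ℚ ℂ) w e2, AdjoinRoot.lift_root e2,
      fun q => AdjoinRoot.lift_of e2⟩
  let x : AdjoinRoot f := AdjoinRoot.of f q0 + AdjoinRoot.of f q1 * AdjoinRoot.root f +
    AdjoinRoot.of f q2 * AdjoinRoot.root f ^ 2
  have hφ : φ x = (q0 : ℝ) + (q1 : ℝ) * t + (q2 : ℝ) * t ^ 2 := by
    simp only [x, map_add, map_mul, map_pow, hφ1, hφ2]
  have hψ : ψ x = (q0 : ℂ) + (q1 : ℂ) * w + (q2 : ℂ) * w ^ 2 := by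
    simp only [x, map_add, map_mul, map_pow, hψ1, hψ2]
  have key : ∀ y : AdjoinRoot f, IsIntegral ℤ (φ y) → IsIntegral ℤ (ψ y) := by
    intro y hy
    have h1 : IsIntegral ℤ y :=
      (isIntegral_algHom_iff φ.toIntAlgHom φ.injective).1 hy
    exact h1.map ψ.toIntAlgHom
  refine ⟨fun h => ?_, fun h => ?_⟩
  · rw [← hψ]; apply key; rwa [hφ]
  · rw [← hψ, ← map_inv₀]; apply key; rwa [map_inv₀, hφ]

lemma lin_indep {d : ℕ} (hd : Squarefree d) (h2 : 2 ≤ d) {t : ℝ} (ht : t ^ 3 = (d : ℝ))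
    {q0 q1 q2 : ℚ} (h : (q0 : ℝ) + (q1 : ℝ) * t + (q2 : ℝ) * t ^ 2 = 0) :
    q0 = 0 ∧ q1 = 0 ∧ q2 = 0 := by
  have hmin : minpoly ℚ t = X ^ 3 - C (d : ℚ) := by
    symm
    apply minpoly.eq_of_irreducible_of_monic (irr hd h2)
    · simp [ht]
    · exact monic_X_pow_sub_C _ (by norm_num)
  have hdvd : minpoly ℚ t ∣ C q0 + C q1 * X + C q2 * X ^ 2 := by
    apply minpoly.dvd
    simpa using h
  have hz : (C q0 + C q1 * X + C q2 * X ^ 2 : ℚ[X]) = 0 := by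
    apply eq_zero_of_dvd_of_natDegree_lt hdvd
    rw [hmin, natDegree_X_pow_sub_C]
    have : (C q0 + C q1 * X + C q2 * X ^ 2 : ℚ[X]).natDegree ≤ 2 := by compute_degree
    omega
  refine ⟨?_, ?_, ?_⟩
  · simpa using congrArg (fun f => coeff f 0) hz
  · simpa [coeff_X] using congrArg (fun f => coeff f 1) hz
  · simpa [coeff_X] using congrArg (fun f => coeff f 2) hz

lemma int_of_rat {q : ℚ} (h : IsIntegral ℤ (q : ℂ)) : ∃ m : ℤ, (m : ℚ) = q := by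
  have h1 : IsIntegral ℤ q :=
    (isIntegral_algHom_iff (algebraMap ℚ ℂ).toIntAlgHom (algebraMap ℚ ℂ).injective).1 h
  obtain ⟨m, hm⟩ := (IsIntegrallyClosed.isIntegral_iff (R := ℤ) (K := ℚ)).1 h1
  exact ⟨m, by simpa using hm⟩

lemma int_congr {A : Type} [CommRing A] {x y : A} (h : IsIntegral ℤ x) (e : x = y) :
    IsIntegral ℤ y := e ▸ h

/-- the norm form -/
def nq (d : ℕ) (q0 q1 q2 : ℚ) : ℚ :=
  q0 ^ 3 + d * q1 ^ 3 + d ^ 2 * q2 ^ 3 - 3 * d * q0 * q1 * q2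

lemma exists_omega : ∃ o : ℂ, o ^ 2 + o + 1 = 0 := by
  refine ⟨⟨-1 / 2, Real.sqrt 3 / 2⟩, ?_⟩
  have h : Real.sqrt 3 * Real.sqrt 3 = 3 := Real.mul_self_sqrt (by norm_num)
  apply Complex.ext
  · simp [pow_two]; nlinarith
  · simp [pow_two]; ring

lemma trace_norm {d : ℕ} (hd : Squarefree d) (h2 : 2 ≤ d) {t : ℝ} (ht : t ^ 3 = (d : ℝ))
    (q0 q1 q2 : ℚ) :
    (IsIntegral ℤ ((q0 : ℝ) + (q1 : ℝ) * t + (q2 : ℝ) * t ^ 2) →
      (∃ m : ℤ, (m : ℚ) = 3 * q0) ∧ ∃ m : ℤ, (m : ℚ) = nq d q0 q1 q2) ∧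
    (IsIntegral ℤ ((q0 : ℝ) + (q1 : ℝ) * t + (q2 : ℝ) * t ^ 2)⁻¹ →
      ∃ m : ℤ, (m : ℚ) = (nq d q0 q1 q2)⁻¹) := by
  obtain ⟨o, ho⟩ := exists_omega
  have ho3 : o ^ 3 = 1 := by linear_combination (o - 1) * ho
  have h0 : (t : ℂ) ^ 3 = (d : ℂ) := by exact_mod_cast congrArg (fun r : ℝ => (r : ℂ)) ht
  have h1 : (o * t) ^ 3 = (d : ℂ) := by rw [mul_pow, ho3, h0, one_mul]
  have h2' : (o ^ 2 * t) ^ 3 = (d : ℂ) := by
    rw [mul_pow, ← pow_mul, mul_comm 2 3, pow_mul, ho3, h0]; simp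
  have c0 := conj_int hd h2 ht h0 q0 q1 q2
  have c1 := conj_int hd h2 ht h1 q0 q1 q2
  have c2 := conj_int hd h2 ht h2' q0 q1 q2
  have hN : ((nq d q0 q1 q2 : ℚ) : ℂ) = ((q0 : ℂ) + (q1 : ℂ) * t + (q2 : ℂ) * t ^ 2) *
      ((q0 : ℂ) + (q1 : ℂ) * (o * t) + (q2 : ℂ) * (o * t) ^ 2) *
      ((q0 : ℂ) + (q1 : ℂ) * (o ^ 2 * t) + (q2 : ℂ) * (o ^ 2 * t) ^ 2) := by
    have e4 : o ^ 4 = o := by linear_combination o * ho3
    have e2 : o ^ 2 = -o - 1 := by linear_combination ho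
    have r1 : (o * t) ^ 2 = (-o - 1) * t ^ 2 := by rw [mul_pow, e2]
    have r2 : (o ^ 2 * t) ^ 2 = o * t ^ 2 := by rw [mul_pow, ← pow_mul, e4]
    rw [r1, r2, e2]
    unfold nq
    push_cast
    rw [← h0]
    linear_combination
      ((q0 : ℂ) + q1 * t + q2 * t ^ 2) * (q1 * t - q2 * t ^ 2) ^ 2 * ho
  refine ⟨fun h => ⟨?_, ?_⟩, fun h => ?_⟩
  · apply int_of_rat
    refine int_congr (((c0.1 h).add (c1.1 h)).add (c2.1 h)) ?_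
    push_cast
    linear_combination ((q1 : ℂ) * t + q2 * t ^ 2 * (o ^ 2 - o + 1)) * ho
  · apply int_of_rat
    rw [hN]
    exact ((c0.1 h).mul (c1.1 h)).mul (c2.1 h)
  · apply int_of_rat
    rw [Rat.cast_inv, hN, mul_inv, mul_inv]
    exact ((c0.2 h).mul (c1.2 h)).mul (c2.2 h)

lemma t_int {d : ℕ} {t : ℝ} (ht : t ^ 3 = (d : ℝ)) : IsIntegral ℤ t := by
  refine ⟨X ^ 3 - C (d : ℤ), monic_X_pow_sub_C _ (by norm_num), ?_⟩
  simp [ht]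

/-- Dedekind: three times an integer of the field has integer coordinates -/
lemma rep3 {d : ℕ} (hd : Squarefree d) (h2 : 2 ≤ d) {t : ℝ} (ht : t ^ 3 = (d : ℝ))
    (q0 q1 q2 : ℚ) (h : IsIntegral ℤ ((q0 : ℝ) + (q1 : ℝ) * t + (q2 : ℝ) * t ^ 2)) :
    ∃ a b c : ℤ, (a : ℚ) = 3 * q0 ∧ (b : ℚ) = 3 * q1 ∧ (c : ℚ) = 3 * q2 := by
  have hti := t_int ht
  obtain ⟨a, ha⟩ := ((trace_norm hd h2 ht q0 q1 q2).1 h).1
  have hC : IsIntegral ℤ (((d * q2 : ℚ) : ℝ) + (q0 : ℝ) * t + (q1 : ℝ) * t ^ 2) := by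
    refine int_congr (h.mul hti) ?_
    push_cast; rw [← ht]; ring
  have hB : IsIntegral ℤ (((d * q1 : ℚ) : ℝ) + ((d * q2 : ℚ) : ℝ) * t + (q0 : ℝ) * t ^ 2) := by
    refine int_congr (hC.mul hti) ?_
    push_cast; rw [← ht]; ring
  obtain ⟨Cc, hCc⟩ := ((trace_norm hd h2 ht _ _ _).1 hC).1
  obtain ⟨B, hB'⟩ := ((trace_norm hd h2 ht _ _ _).1 hB).1
  have hmu : IsIntegral ℤ (((0 : ℚ) : ℝ) + ((3 * q1 : ℚ) : ℝ) * t + ((3 * q2 : ℚ) : ℝ) * t ^ 2) := by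
    have h3 : IsIntegral ℤ (3 : ℝ) := by exact_mod_cast isIntegral_algebraMap (R := ℤ) (A := ℝ) (x := 3)
    have ha' : IsIntegral ℤ (a : ℝ) := isIntegral_algebraMap (R := ℤ) (A := ℝ) (x := a)
    refine int_congr ((h3.mul h).sub ha') ?_
    have : (a : ℝ) = 3 * q0 := by exact_mod_cast congrArg (fun r : ℚ => (r : ℝ)) ha
    push_cast; rw [this]; ring
  obtain ⟨m, hm⟩ := ((trace_norm hd h2 ht _ _ _).1 hmu).2
  have hd0 : (d : ℚ) ≠ 0 := by positivity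
  have e1 : (m * d ^ 2 : ℤ) = B ^ 3 + d * Cc ^ 3 := by
    have : ((m * d ^ 2 : ℤ) : ℚ) = ((B ^ 3 + d * Cc ^ 3 : ℤ) : ℚ) := by
      push_cast; rw [hm, hB', hCc]; unfold nq; ring
    exact_mod_cast this
  have hsq : Squarefree (d : ℤ) := Int.squarefree_natCast.2 hd
  have hdB : (d : ℤ) ∣ B := by
    apply (hsq.dvd_pow_iff_dvd (n := 3) (by norm_num)).1
    exact ⟨m * d - Cc ^ 3, by linear_combination -e1⟩
  obtain ⟨b, hb⟩ := hdB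
  have hdz : (d : ℤ) ≠ 0 := by positivity
  have hdC : (d : ℤ) ∣ Cc := by
    apply (hsq.dvd_pow_iff_dvd (n := 3) (by norm_num)).1
    refine ⟨m - d * b ^ 3, ?_⟩
    apply mul_left_cancel₀ hdz
    rw [hb] at e1
    linear_combination -e1
  obtain ⟨c, hc⟩ := hdC
  refine ⟨a, b, c, ha, ?_, ?_⟩
  · apply mul_left_cancel₀ hd0
    have : (B : ℚ) = d * b := by exact_mod_cast congrArg (fun r : ℤ => (r : ℚ)) hb
    rw [← this, hB']; ring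
  · apply mul_left_cancel₀ hd0
    have : (Cc : ℚ) = d * c := by exact_mod_cast congrArg (fun r : ℤ => (r : ℚ)) hc
    rw [← this, hCc]; ring

lemma nq_real {d : ℕ} {t : ℝ} (ht : t ^ 3 = (d : ℝ)) (q0 q1 q2 : ℚ) :
    ((nq d q0 q1 q2 : ℚ) : ℝ) = ((q0 : ℝ) + (q1 : ℝ) * t + (q2 : ℝ) * t ^ 2) *
      ((((q0 : ℝ) - q1 * t) ^ 2 + (q1 * t - q2 * t ^ 2) ^ 2 + (q0 - q2 * t ^ 2) ^ 2) / 2) := by
  unfold nq; push_cast; rw [← ht]; ring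

/-- every unit above one is large -/
lemma unit_large {d : ℕ} (hd : Squarefree d) (h2 : 2 ≤ d) {t : ℝ} (ht : t ^ 3 = (d : ℝ))
    (ht6 : 6 ≤ t) {u : ℝ} (hu : IsU t u) (h1 : 1 < u) : t ^ 2 - 3 < u := by
  obtain ⟨⟨q0, q1, q2, rfl⟩, hi, hi'⟩ := hu
  obtain ⟨a, b, c, ha, hb, hc⟩ := rep3 hd h2 ht q0 q1 q2 hi
  obtain ⟨m, hm⟩ := ((trace_norm hd h2 ht q0 q1 q2).1 hi).2
  obtain ⟨m', hm'⟩ := (trace_norm hd h2 ht q0 q1 q2).2 hi'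
  have hr := nq_real ht q0 q1 q2
  set u := (q0 : ℝ) + (q1 : ℝ) * t + (q2 : ℝ) * t ^ 2 with hu
  set Q := (((q0 : ℝ) - q1 * t) ^ 2 + (q1 * t - q2 * t ^ 2) ^ 2 + (q0 - q2 * t ^ 2) ^ 2) / 2 with hQ
  have hQ0 : 0 ≤ Q := by positivity
  have hm0 : (0 : ℝ) ≤ m := by
    have : (m : ℝ) = ((nq d q0 q1 q2 : ℚ) : ℝ) := by exact_mod_cast congrArg (fun r : ℚ => (r : ℝ)) hm
    rw [this, hr]; positivity
  have hm1 : m ≤ 1 := by
    by_contra hlt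
    push Not at hlt
    have hne : (m : ℚ) ≠ 0 := by positivity
    have : (m * m' : ℚ) = 1 := by rw [hm', ← hm]; field_simp
    have h3 : m * m' = 1 := by exact_mod_cast this
    have := Int.eq_one_of_mul_eq_one_right (by omega) h3
    omega
  have hmr : u * Q ≤ 1 := by
    have : (m : ℝ) = ((nq d q0 q1 q2 : ℚ) : ℝ) := by exact_mod_cast congrArg (fun r : ℚ => (r : ℝ)) hm
    rw [← hr, ← this]; exact_mod_cast hm1
  have hQ1 : Q < 1 := by nlinarith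
  have hbr : (b : ℝ) = 3 * q1 := by exact_mod_cast congrArg (fun r : ℚ => (r : ℝ)) hb
  have hcr : (c : ℝ) = 3 * q2 := by exact_mod_cast congrArg (fun r : ℚ => (r : ℝ)) hc
  have s1 : |(q0 : ℝ) - q1 * t| < 3 / 2 := by
    apply abs_lt_of_sq_lt_sq _ (by norm_num)
    nlinarith [sq_nonneg ((q1 : ℝ) * t - q2 * t ^ 2), sq_nonneg ((q0 : ℝ) - q2 * t ^ 2)]
  have s2 : |(q1 : ℝ) * t - q2 * t ^ 2| < 3 / 2 := by
    apply abs_lt_of_sq_lt_sq _ (by norm_num)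
    nlinarith [sq_nonneg ((q0 : ℝ) - q1 * t), sq_nonneg ((q0 : ℝ) - q2 * t ^ 2)]
  have s3 : |(q0 : ℝ) - q2 * t ^ 2| < 3 / 2 := by
    apply abs_lt_of_sq_lt_sq _ (by norm_num)
    nlinarith [sq_nonneg ((q0 : ℝ) - q1 * t), sq_nonneg ((q1 : ℝ) * t - q2 * t ^ 2)]
  rw [abs_lt] at s1 s2 s3
  have k1 : (c : ℝ) * t ^ 2 - 3 < u := by rw [hcr, hu]; nlinarith
  have k2 : u < (c : ℝ) * t ^ 2 + 3 := by rw [hcr, hu]; nlinarith
  have k3 : (b : ℝ) * t - 3 < u := by rw [hbr, hu]; nlinarith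
  have k4 : u < (b : ℝ) * t + 3 := by rw [hbr, hu]; nlinarith
  have ht2 : 36 ≤ t ^ 2 := by nlinarith
  rcases le_or_gt 1 c with hc1 | hc1
  · have : (1 : ℝ) ≤ c := by exact_mod_cast hc1
    nlinarith
  · exfalso
    have hc0 : c = 0 := by
      by_contra hne
      have : (c : ℝ) ≤ -1 := by exact_mod_cast (by omega : c ≤ -1)
      nlinarith
    have hb0 : b = 0 := by
      by_contra hne
      rcases lt_or_gt_of_ne hne with h | h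
      · have : (b : ℝ) ≤ -1 := by exact_mod_cast (by omega : b ≤ -1)
        nlinarith
      · have : (1 : ℝ) ≤ b := by exact_mod_cast (by omega : 1 ≤ b)
        rw [hc0] at k2
        simp at k2
        nlinarith
    have hq1 : q1 = 0 := by rw [hb0] at hb; simp at hb; exact hb
    have hq2 : q2 = 0 := by rw [hc0] at hc; simp at hc; exact hc
    rw [hu, hQ, hq1, hq2] at hmr
    rw [hu, hq1, hq2] at h1
    simp at hmr h1
    have h1' : (1 : ℝ) < q0 := by exact_mod_cast h1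
    nlinarith [mul_pos (sub_pos.2 h1') (sub_pos.2 h1')]

lemma InK.mul {d : ℕ} {t : ℝ} (ht : t ^ 3 = (d : ℝ)) {u v : ℝ} (hu : InK t u) (hv : InK t v) :
    InK t (u * v) := by
  obtain ⟨a0, a1, a2, rfl⟩ := hu
  obtain ⟨b0, b1, b2, rfl⟩ := hv
  refine ⟨a0 * b0 + d * (a1 * b2 + a2 * b1), a0 * b1 + a1 * b0 + d * (a2 * b2),
    a0 * b2 + a1 * b1 + a2 * b0, ?_⟩
  push_cast; rw [← ht]; ring

lemma InK.inv {d : ℕ} (hd : Squarefree d) (h2 : 2 ≤ d) {t : ℝ} (ht : t ^ 3 = (d : ℝ)) {u : ℝ}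
    (hu : InK t u) : InK t u⁻¹ := by
  obtain ⟨a0, a1, a2, rfl⟩ := hu
  by_cases h0 : (a0 : ℝ) + (a1 : ℝ) * t + (a2 : ℝ) * t ^ 2 = 0
  · rw [h0]; exact ⟨0, 0, 0, by simp⟩
  have hr := nq_real ht a0 a1 a2
  have hN : ((nq d a0 a1 a2 : ℚ) : ℝ) ≠ 0 := by
    rw [hr]
    refine mul_ne_zero h0 fun hz => h0 ?_
    have e1 : (a0 : ℝ) - a1 * t = 0 := by
      nlinarith [sq_nonneg ((a0 : ℝ) - a1 * t), sq_nonneg ((a1 : ℝ) * t - a2 * t ^ 2),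
        sq_nonneg ((a0 : ℝ) - a2 * t ^ 2)]
    have e2 : (a0 : ℝ) - a2 * t ^ 2 = 0 := by
      nlinarith [sq_nonneg ((a0 : ℝ) - a1 * t), sq_nonneg ((a1 : ℝ) * t - a2 * t ^ 2),
        sq_nonneg ((a0 : ℝ) - a2 * t ^ 2)]
    have := lin_indep hd h2 ht (q0 := a0) (q1 := -a1) (q2 := 0) (by push_cast; linarith)
    have h00 : (a0 : ℝ) = 0 := by exact_mod_cast this.1
    linarith
  refine ⟨(a0 ^ 2 - d * a1 * a2) / nq d a0 a1 a2, (d * a2 ^ 2 - a0 * a1) / nq d a0 a1 a2,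
    (a1 ^ 2 - a0 * a2) / nq d a0 a1 a2, ?_⟩
  apply inv_eq_of_mul_eq_one_right
  push_cast
  field_simp
  unfold nq; push_cast; rw [← ht]; ring

lemma IsU.mul {d : ℕ} {t : ℝ} (ht : t ^ 3 = (d : ℝ)) {u v : ℝ} (hu : IsU t u) (hv : IsU t v) :
    IsU t (u * v) :=
  ⟨hu.1.mul ht hv.1, hu.2.1.mul hv.2.1, by rw [mul_inv]; exact hu.2.2.mul hv.2.2⟩

lemma IsU.inv {d : ℕ} (hd : Squarefree d) (h2 : 2 ≤ d) {t : ℝ} (ht : t ^ 3 = (d : ℝ)) {u : ℝ}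
    (hu : IsU t u) : IsU t u⁻¹ :=
  ⟨hu.1.inv hd h2 ht, hu.2.2, by rw [inv_inv]; exact hu.2.1⟩

lemma IsU.pow {d : ℕ} {t : ℝ} (ht : t ^ 3 = (d : ℝ)) {u : ℝ} (hu : IsU t u) (k : ℕ) :
    IsU t (u ^ k) := by
  induction k with
  | zero => exact ⟨⟨1, 0, 0, by simp⟩, by simpa using isIntegral_one, by simpa using isIntegral_one⟩
  | succ k ih => rw [pow_succ]; exact ih.mul ht hu

/-- the fundamental unit exists and a given unit above one is a power of it -/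
lemma exists_fund {d : ℕ} (hd : Squarefree d) (h2 : 2 ≤ d) {t : ℝ} (ht : t ^ 3 = (d : ℝ))
    (ht6 : 6 ≤ t) {e : ℝ} (he : IsU t e) (h1 : 1 < e) :
    ∃ η : ℝ, IsU t η ∧ 1 < η ∧ (∀ u, IsU t u → 1 < u → η ≤ u) ∧ ∃ k : ℕ, e = η ^ k := by
  let S : Set ℝ := {u | IsU t u ∧ 1 < u}
  have hne : S.Nonempty := ⟨e, he, h1⟩
  have hbd : BddBelow S := ⟨1, fun u hu => hu.2.le⟩
  have hm1 : 1 ≤ sInf S := le_csInf hne fun u hu => hu.2.le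
  have hc : 1 < t ^ 2 - 3 := by nlinarith
  obtain ⟨η, hηS, hη⟩ := exists_lt_of_csInf_lt hne
    (show sInf S < sInf S * (t ^ 2 - 3) by nlinarith)
  have hmin : ∀ u, IsU t u → 1 < u → η ≤ u := by
    intro u hu hu1
    by_contra hlt
    push Not at hlt
    have hu0 : 0 < u := by linarith
    have h3 : IsU t (η * u⁻¹) := hηS.1.mul ht (hu.inv hd h2 ht)
    have h4 : 1 < η * u⁻¹ := by rw [← div_eq_mul_inv, one_lt_div hu0]; exact hlt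
    have h5 := unit_large hd h2 ht ht6 h3 h4
    rw [← div_eq_mul_inv, lt_div_iff₀ hu0] at h5
    have h6 : sInf S ≤ u := csInf_le hbd ⟨hu, hu1⟩
    nlinarith
  refine ⟨η, hηS.1, hηS.2, hmin, ?_⟩
  obtain ⟨k, hk1, hk2⟩ := exists_nat_pow_near h1.le hηS.2
  refine ⟨k, ?_⟩
  by_contra hne'
  have hp : 0 < η ^ k := pow_pos (by linarith [hηS.2]) k
  have h3 : IsU t (e * (η ^ k)⁻¹) := he.mul ht ((hηS.1.pow ht k).inv hd h2 ht)
  have h4 : 1 < e * (η ^ k)⁻¹ := by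
    rw [← div_eq_mul_inv, one_lt_div hp]; exact lt_of_le_of_ne hk1 (Ne.symm hne')
  have h5 := hmin _ h3 h4
  rw [← div_eq_mul_inv, le_div_iff₀ hp] at h5
  rw [pow_succ] at hk2
  linarith

end Pool.Agent.AAC
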